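import Pool.Agent.Y843.CH.Stm
import Pool.Agent.TH423.SH.PSUa

/-!
Bombieri-Vinogradov with weights `κ ^ ω(q)` and arbitrary endpoints `u ≤ v`, level `v ^ 0.4995` (CH-BVW).
Adapted from `Pool/Agent/TH423/SH/PSUb.lean`.
-/

set_option autoImplicit false

open Finset H343E Pool.Agent.H398R2.BV Pool.Agent.TH423.SH.PSUa

namespace Pool.Agent.Y932.CH

lemma Q_le_v (m0 v Q : ℕ) (hv : 1 ≤ v) (hm : m0 ^ 2 ≤ v)
    (h : (Q : ℝ) ≤ m0 * (v : ℝ) ^ (4995 / 10000 : ℝ)) : Q ≤ v := by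
  have hv0 : (0:ℝ) < v := by exact_mod_cast hv
  have hv1 : (1:ℝ) ≤ v := by exact_mod_cast hv
  have h1 : (m0 : ℝ) ≤ (v : ℝ) ^ (1 / 2 : ℝ) := by
    rw [← Real.sqrt_eq_rpow]
    apply Real.le_sqrt_of_sq_le
    exact_mod_cast hm
  have h2 : (Q : ℝ) ≤ v := by
    calc (Q : ℝ) ≤ m0 * (v : ℝ) ^ (4995 / 10000 : ℝ) := h
      _ ≤ (v : ℝ) ^ (1 / 2 : ℝ) * (v : ℝ) ^ (4995 / 10000 : ℝ) :=
        mul_le_mul_of_nonneg_right h1 (by positivity)
      _ = (v : ℝ) ^ (9995 / 10000 : ℝ) := by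
        rw [← Real.rpow_add hv0]
        norm_num
      _ ≤ (v : ℝ) ^ (1 : ℝ) := Real.rpow_le_rpow_of_exponent_le hv1 (by norm_num)
      _ = v := Real.rpow_one _
  exact_mod_cast h2

lemma bvU (m0 : ℕ) (U : ℕ) : ∃ X : ℕ, ∀ v : ℕ, X ≤ v → ∀ u : ℕ, u ≤ v → ∀ Q : ℕ,
    (Q : ℝ) ≤ m0 * (v : ℝ) ^ (4995 / 10000 : ℝ) → ∑ q ∈ Icc 1 Q, ee u q ≤ v / Real.log v ^ U := by
  obtain ⟨Bv, x0, hBV⟩ := primes_of (U + 1) (unsmoothed (U + 3))
  obtain ⟨k, hk⟩ := sum_pow_omega_div_totient 1 le_rfl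
  obtain ⟨K, hK⟩ : ∃ K : ℕ, K = 2 ^ k := ⟨_, rfl⟩
  rw [← hK] at hk
  obtain ⟨X1, hX1⟩ := ev ((m0 : ℝ) ^ 2) Bv (5 / 10000) (by norm_num)
  obtain ⟨X2, hX2⟩ := ev (2 * 2 ^ K) (K + U) (5 / 10000) (by norm_num)
  obtain ⟨X3, hX3⟩ := ev (2 * (m0 : ℝ)) U (5005 / 10000) (by norm_num)
  obtain ⟨X4, hX4⟩ := Filter.eventually_atTop.mp
    ((Real.tendsto_log_atTop.comp (tendsto_natCast_atTop_atTop (R := ℝ))).eventually
      (Filter.eventually_ge_atTop ((4/3 : ℝ) ^ (U + 1) + 1)))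
  refine ⟨max (max (max X1 X2) (max X3 X4)) (max ((x0 + 2) ^ 2) (m0 ^ 2)), ?_⟩
  intro v hv u huv Q hQr
  simp only [max_le_iff] at hv
  obtain ⟨⟨⟨v1, v2⟩, v3, v4⟩, v5, v6⟩ := hv
  have e1 := hX1 v v1
  have e2 := hX2 v v2
  have e3 := hX3 v v3
  have e4 := hX4 v v4
  simp only [Function.comp] at e4
  obtain ⟨L, hL⟩ : ∃ L : ℝ, L = Real.log v := ⟨_, rfl⟩
  rw [← hL] at e1 e2 e3 e4 ⊢
  have hU0 : (0:ℝ) < (4/3 : ℝ) ^ (U + 1) := by positivity
  have hL1 : 1 ≤ L := by linarith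
  have hL0 : 0 < L := by linarith
  have hv2 : 2 ≤ v := by
    have h1 : x0 + 2 ≤ (x0 + 2) ^ 2 := Nat.le_self_pow (by norm_num) _
    omega
  have hv0 : (0:ℝ) < v := by exact_mod_cast (by omega : 0 < v)
  have hv1 : (1:ℝ) ≤ v := by exact_mod_cast (by omega : 1 ≤ v)
  rcases le_or_gt ((v : ℝ) ^ (9995 / 10000 : ℝ)) (u : ℝ) with hu4 | hc
  · -- the large values of `u`
    have hux : ((x0 + 2 : ℕ) : ℝ) ≤ u := by
      calc ((x0 + 2 : ℕ) : ℝ) ≤ Real.sqrt v := by
            apply Real.le_sqrt_of_sq_le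
            exact_mod_cast v5
        _ = (v : ℝ) ^ (1 / 2 : ℝ) := Real.sqrt_eq_rpow _
        _ ≤ (v : ℝ) ^ (9995 / 10000 : ℝ) := Real.rpow_le_rpow_of_exponent_le hv1 (by norm_num)
        _ ≤ u := hu4
    have hux' : x0 + 2 ≤ u := by exact_mod_cast hux
    have hux0 : x0 ≤ u := by omega
    have hu2 : 2 ≤ u := by omega
    have hu0 : (0:ℝ) < u := by exact_mod_cast (by omega : 0 < u)
    have huv' : (u:ℝ) ≤ v := by exact_mod_cast huv
    have hlu0 : 0 < Real.log u := Real.log_pos (by exact_mod_cast (by omega : 1 < u))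
    have hlu : Real.log u ≤ L := by rw [hL]; exact Real.log_le_log hu0 huv'
    have hlu2 : 3 * L ≤ 4 * Real.log u := by
      have h2 := Real.log_le_log (by positivity) hu4
      rw [Real.log_rpow hv0, ← hL] at h2
      linarith
    have hsq : (Q : ℝ) ^ 2 ≤ 1 * u / Real.log u ^ Bv := by
      rw [one_mul, le_div_iff₀ (by positivity)]
      have h1 : (Q : ℝ) ^ 2 ≤ (m0 * (v : ℝ) ^ (4995 / 10000 : ℝ)) ^ 2 :=
        pow_le_pow_left₀ (Nat.cast_nonneg _) hQr 2
      have h2 : Real.log u ^ Bv ≤ L ^ Bv := pow_le_pow_left₀ hlu0.le hlu Bv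
      calc (Q : ℝ) ^ 2 * Real.log u ^ Bv ≤ (m0 * (v : ℝ) ^ (4995 / 10000 : ℝ)) ^ 2 * L ^ Bv :=
            mul_le_mul h1 h2 (by positivity) (by positivity)
        _ = ((v : ℝ) ^ (4995 / 10000 : ℝ)) ^ 2 * ((m0:ℝ) ^ 2 * L ^ Bv) := by ring
        _ ≤ ((v : ℝ) ^ (4995 / 10000 : ℝ)) ^ 2 * (v : ℝ) ^ (5 / 10000 : ℝ) :=
            mul_le_mul_of_nonneg_left e1 (by positivity)
        _ = (v : ℝ) ^ (9995 / 10000 : ℝ) := by
            rw [← Real.rpow_natCast, ← Real.rpow_mul hv0.le, ← Real.rpow_add hv0]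
            norm_num
        _ ≤ u := hu4
    have hD2 : (Q : ℝ) ≤ (Q:ℝ) ^ 2 := by
      have : Q ≤ Q ^ 2 := Nat.le_self_pow (by norm_num) Q
      exact_mod_cast this
    have h := hBV u hux0 1 le_rfl Q (by rw [one_mul] at hsq; exact hD2.trans hsq) hsq (LL u)
      (LL_fam u)
    have h' : ∑ q ∈ Icc 1 Q, ee u q ≤ 1 * u / Real.log u ^ (U + 1) := h
    refine h'.trans ?_
    rw [one_mul]
    have h3 : (3/4 * L) ^ (U + 1) ≤ Real.log u ^ (U + 1) :=
      pow_le_pow_left₀ (by positivity) (by linarith) _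
    calc (u:ℝ) / Real.log u ^ (U + 1) ≤ v / (3/4 * L) ^ (U + 1) :=
          div_le_div₀ hv0.le huv' (by positivity) h3
      _ ≤ v / L ^ U := by
          apply div_le_div_of_nonneg_left hv0.le (by positivity)
          rw [mul_pow, pow_succ L]
          have h4 : (1:ℝ) ≤ (3/4) ^ (U + 1) * L := by
            have h5 : (3/4 : ℝ) ^ (U + 1) * (4/3) ^ (U + 1) = 1 := by
              rw [← mul_pow]; norm_num
            have h6 : (0:ℝ) < (3/4 : ℝ) ^ (U + 1) := by positivity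
            nlinarith
          have h7 : 0 < L ^ U := by positivity
          nlinarith
  · -- the small values of `u`
    have hu4 : (u : ℝ) ≤ (v : ℝ) ^ (9995 / 10000 : ℝ) := hc.le
    have hQv : Q ≤ v := Q_le_v m0 v Q (by omega) v6 hQr
    have hlQ : Real.log Q ≤ L := by
      rcases Nat.eq_zero_or_pos Q with hq | hq
      · subst hq; simp; linarith
      · rw [hL]; exact Real.log_le_log (by exact_mod_cast hq) (by exact_mod_cast hQv)
    have hlQ0 : 0 ≤ Real.log Q := Real.log_natCast_nonneg Q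
    have h1 : ∑ q ∈ Icc 1 Q, ee u q ≤ u * (1 + Real.log Q) ^ K + Q := by
      calc ∑ q ∈ Icc 1 Q, ee u q ≤ ∑ q ∈ Icc 1 Q, (u * (1 ^ q.primeFactors.card /
            (Nat.totient q : ℝ)) + 1) := by
            apply sum_le_sum
            intro q hq
            rw [mem_Icc] at hq
            have := ee_le u q hq.1
            rw [one_pow, mul_one_div]
            exact this
        _ = u * ∑ q ∈ Icc 1 Q, (1:ℝ) ^ q.primeFactors.card / (Nat.totient q : ℝ) + Q := by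
            rw [sum_add_distrib, mul_sum]
            simp
        _ ≤ _ := by
            have := mul_le_mul_of_nonneg_left (hk Q) (Nat.cast_nonneg (α := ℝ) u)
            linarith
    have h2 : (1 + Real.log Q) ^ K ≤ (2 * L) ^ K :=
      pow_le_pow_left₀ (by linarith) (by linarith) K
    rw [le_div_iff₀ (by positivity)]
    have h3 : (u : ℝ) * (1 + Real.log Q) ^ K * L ^ U ≤ v / 2 := by
      calc (u : ℝ) * (1 + Real.log Q) ^ K * L ^ U ≤
            (v : ℝ) ^ (9995 / 10000 : ℝ) * (2 * L) ^ K * L ^ U := by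
            apply mul_le_mul_of_nonneg_right _ (by positivity)
            exact mul_le_mul hu4 h2 (by positivity) (by positivity)
        _ = (v : ℝ) ^ (9995 / 10000 : ℝ) * (2 * 2 ^ K * L ^ (K + U)) / 2 := by
            rw [mul_pow, pow_add]; ring
        _ ≤ (v : ℝ) ^ (9995 / 10000 : ℝ) * (v : ℝ) ^ (5 / 10000 : ℝ) / 2 := by
            apply div_le_div_of_nonneg_right _ (by norm_num)
            exact mul_le_mul_of_nonneg_left e2 (by positivity)
        _ = v / 2 := by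
            rw [← Real.rpow_add hv0]
            norm_num
    have h4 : (Q : ℝ) * L ^ U ≤ v / 2 := by
      calc (Q : ℝ) * L ^ U ≤ m0 * (v : ℝ) ^ (4995 / 10000 : ℝ) * L ^ U :=
            mul_le_mul_of_nonneg_right hQr (by positivity)
        _ = (v : ℝ) ^ (4995 / 10000 : ℝ) * (2 * m0 * L ^ U) / 2 := by ring
        _ ≤ (v : ℝ) ^ (4995 / 10000 : ℝ) * (v : ℝ) ^ (5005 / 10000 : ℝ) / 2 := by
            apply div_le_div_of_nonneg_right _ (by norm_num)
            exact mul_le_mul_of_nonneg_left e3 (by positivity)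
        _ = v / 2 := by
            rw [← Real.rpow_add hv0]
            norm_num
    have h5 : (∑ q ∈ Icc 1 Q, ee u q) * L ^ U ≤ (u * (1 + Real.log Q) ^ K + Q) * L ^ U :=
      mul_le_mul_of_nonneg_right h1 (by positivity)
    nlinarith

/-- weights -/
theorem bvw : Pool.Agent.Y843.CH.St_BVW := by
  intro m0 κ U hκ
  obtain ⟨k, hk⟩ := sum_pow_omega_div_totient ((κ : ℝ) ^ 2) (by
    have : (1:ℝ) ≤ κ := by exact_mod_cast hκ
    exact one_le_pow₀ this)
  obtain ⟨K, hK⟩ : ∃ K : ℕ, K = 2 ^ k := ⟨_, rfl⟩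
  rw [← hK] at hk
  obtain ⟨X1, hX1⟩ := bvU m0 (K + 2 * U + 1)
  obtain ⟨X4, hX4⟩ := Filter.eventually_atTop.mp
    ((Real.tendsto_log_atTop.comp (tendsto_natCast_atTop_atTop (R := ℝ))).eventually
      (Filter.eventually_ge_atTop ((2 : ℝ) * 2 ^ K + 1)))
  refine ⟨max (max X1 X4) (max 2 (m0 ^ 2)), ?_⟩
  intro v hv u huv Q hQ
  simp only [max_le_iff] at hv
  obtain ⟨⟨v1, v4⟩, v5, v6⟩ := hv
  have e1 := hX1 v v1 u huv Q hQ
  have e4 := hX4 v v4
  simp only [Function.comp] at e4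
  obtain ⟨L, hL⟩ : ∃ L : ℝ, L = Real.log v := ⟨_, rfl⟩
  rw [← hL] at e1 e4 ⊢
  have hK0 : (0:ℝ) < 2 ^ K := by positivity
  have hL1 : 1 ≤ L := by linarith
  have hL0 : 0 < L := by linarith
  have hv0 : (0:ℝ) < v := by exact_mod_cast (by omega : 0 < v)
  have hv1 : (1:ℝ) ≤ v := by exact_mod_cast (by omega : 1 ≤ v)
  have huv' : (u:ℝ) ≤ v := by exact_mod_cast huv
  have hQv : Q ≤ v := Q_le_v m0 v Q (by omega) v6 hQ
  have hlQ : Real.log Q ≤ L := by
    rcases Nat.eq_zero_or_pos Q with hq | hq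
    · subst hq; simp; linarith
    · rw [hL]; exact Real.log_le_log (by exact_mod_cast hq) (by exact_mod_cast hQv)
  have hlQ0 : 0 ≤ Real.log Q := Real.log_natCast_nonneg Q
  -- the first factor
  have h1 : ∑ q ∈ Icc 1 Q, ((κ : ℝ) ^ q.primeFactors.card) ^ 2 * ee u q ≤ 2 * v * (2 * L) ^ K := by
    calc ∑ q ∈ Icc 1 Q, ((κ : ℝ) ^ q.primeFactors.card) ^ 2 * ee u q ≤
        ∑ q ∈ Icc 1 Q, 2 * v * (((κ : ℝ) ^ 2) ^ q.primeFactors.card / (Nat.totient q : ℝ)) := by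
          apply sum_le_sum
          intro q hq
          rw [mem_Icc] at hq
          have h2 := ee_le u q hq.1
          have hφ : (0 : ℝ) < Nat.totient q := by exact_mod_cast Nat.totient_pos.mpr (by omega)
          have hφv : (Nat.totient q : ℝ) ≤ v := by
            exact_mod_cast (Nat.totient_le q).trans (hq.2.trans hQv)
          have h3 : ee u q ≤ 2 * v / (Nat.totient q : ℝ) := by
            rw [le_div_iff₀ hφ]
            have h4 : (u / (Nat.totient q : ℝ) + 1) * (Nat.totient q : ℝ) = u + Nat.totient q := by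
              field_simp
            have h5 := mul_le_mul_of_nonneg_right h2 hφ.le
            linarith
          calc ((κ : ℝ) ^ q.primeFactors.card) ^ 2 * ee u q ≤
              ((κ : ℝ) ^ q.primeFactors.card) ^ 2 * (2 * v / (Nat.totient q : ℝ)) :=
                mul_le_mul_of_nonneg_left h3 (by positivity)
            _ = 2 * v * (((κ : ℝ) ^ 2) ^ q.primeFactors.card / (Nat.totient q : ℝ)) := by
                rw [← pow_mul, ← pow_mul, mul_comm 2 q.primeFactors.card]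
                ring
      _ = 2 * v * ∑ q ∈ Icc 1 Q, (((κ : ℝ) ^ 2) ^ q.primeFactors.card / (Nat.totient q : ℝ)) := by
          rw [mul_sum]
      _ ≤ 2 * v * (1 + Real.log Q) ^ K := mul_le_mul_of_nonneg_left (hk Q) (by positivity)
      _ ≤ 2 * v * (2 * L) ^ K := by
          apply mul_le_mul_of_nonneg_left _ (by positivity)
          exact pow_le_pow_left₀ (by linarith) (by linarith) K
  have hcs : (∑ q ∈ Icc 1 Q, (κ : ℝ) ^ q.primeFactors.card * ee u q) ^ 2 ≤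
      (∑ q ∈ Icc 1 Q, ((κ : ℝ) ^ q.primeFactors.card) ^ 2 * ee u q) *
        ∑ q ∈ Icc 1 Q, ee u q := by
    apply Finset.sum_sq_le_sum_mul_sum_of_sq_eq_mul
    · intro q _; have := ee_nonneg u q; positivity
    · intro q _; exact ee_nonneg u q
    · intro q _; ring
  have hA0 : 0 ≤ ∑ q ∈ Icc 1 Q, ee u q := sum_nonneg fun q _ => ee_nonneg u q
  have h6 : (∑ q ∈ Icc 1 Q, (κ : ℝ) ^ q.primeFactors.card * ee u q) ^ 2 ≤ (v / L ^ U) ^ 2 := by
    refine hcs.trans ?_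
    calc (∑ q ∈ Icc 1 Q, ((κ : ℝ) ^ q.primeFactors.card) ^ 2 * ee u q) *
        ∑ q ∈ Icc 1 Q, ee u q ≤ (2 * v * (2 * L) ^ K) * (v / L ^ (K + 2 * U + 1)) :=
          mul_le_mul h1 e1 hA0 (by positivity)
      _ = (v / L ^ U) ^ 2 * (2 * 2 ^ K / L) := by
          have e7 : L ^ (K + 2 * U + 1) = L ^ K * (L ^ U) ^ 2 * L := by
            rw [pow_succ, pow_add, mul_comm 2 U, pow_mul]
          rw [mul_pow, e7]
          field_simp
      _ ≤ (v / L ^ U) ^ 2 * 1 := by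
          apply mul_le_mul_of_nonneg_left _ (by positivity)
          rw [div_le_one hL0]
          linarith
      _ = _ := mul_one _
  exact le_of_pow_le_pow_left₀ (by norm_num) (by positivity) h6

end Pool.Agent.Y932.CH
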